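import Pool.Agent.Lib.MP_32448b_gt.HM

set_option autoImplicit false

namespace Pool.Agent.Results.MP_32448b_gt.Classification

/-- A dendrite: a locally connected metric continuum containing no simple closed curve. -/
def IsDendrite (X : Type*) [MetricSpace X] : Prop :=
  CompactSpace X ∧ ConnectedSpace X ∧ LocallyConnectedSpace X ∧
    ¬ ∃ g : Circle → X, Continuous g ∧ Function.Injective g

/-- An exactly `k`-to-one continuous surjection. -/
def IsKToOne {X Y : Type*} [TopologicalSpace X] [TopologicalSpace Y] (k : ℕ) (f : X → Y) : Prop :=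
  Continuous f ∧ Function.Surjective f ∧ ∀ y, (f ⁻¹' {y}).encard = k

universe u v

theorem result (Y : Type u) [MetricSpace Y] [CompactSpace Y] [ConnectedSpace Y] (k : ℕ)
    (hk : 1 < k) :
    (∃ (X : Type v) (_ : MetricSpace X), IsDendrite X ∧ ∃ f : X → Y, IsKToOne k f) ↔
      LocallyConnectedSpace Y ∧ (∃ c : Circle → Y, Continuous c ∧ Function.Injective c) ∧
        ∃ T : ℕ → Set Y, (∀ n, IsDendrite (T n)) ∧ ⋃ n, T n = Set.univ := by
  have hd : ∀ (X : Type u) [MetricSpace X], Pool.Agent.Lib.MP_32448b_gt.Dend X → IsDendrite X :=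
    fun X _ _ => ⟨inferInstance, inferInstance, inferInstance,
      fun ⟨c, a, b⟩ => Pool.Agent.Lib.MP_32448b_gt.no_circle c a b⟩
  let eY := (kuratowskiEmbedding.isometry Y).isometryEquivOnRange.toHomeomorph
  have := eY.compactSpace
  have := eY.surjective.connectedSpace eY.continuous
  constructor
  · rintro ⟨D, _, ⟨_, _, _, hc⟩, f, hf⟩
    let eD := (kuratowskiEmbedding.isometry D).isometryEquivOnRange.toHomeomorph
    have := eD.compactSpace
    have := eD.surjective.connectedSpace eD.continuous
    have := eD.symm.locallyConnectedSpace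
    have := Pool.Agent.Lib.MP_32448b_gt.dend_of_no_circle (X := Set.range (kuratowskiEmbedding D))
      fun g hg hi => hc ⟨eD.symm ∘ g, eD.symm.continuous.comp hg, eD.symm.injective.comp hi⟩
    obtain ⟨_, ⟨c, h1, h2⟩, T, h3, h4⟩ := Pool.Agent.Lib.MP_32448b_gt.necessary
      (f := eY ∘ f ∘ eD.symm) (k := k) (eY.continuous.comp (hf.1.comp eD.symm.continuous)) hk
      (fun y => by
        have e : (eY ∘ f ∘ eD.symm) ⁻¹' {y} = eD '' (f ⁻¹' {eY.symm y}) := by
          rw [eD.image_eq_preimage_symm]
          ext x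
          simp [Homeomorph.eq_symm_apply]
        rw [e, Set.ncard_image_of_injective _ eD.injective, Set.ncard, hf.2.2]
        rfl)
    refine ⟨eY.locallyConnectedSpace, ⟨eY.symm ∘ c, eY.symm.continuous.comp h1,
      eY.symm.injective.comp h2⟩, fun n => eY.symm '' T n, fun n => hd _ ((h3 n).image
        eY.symm.continuous.continuousOn eY.symm.injective.injOn).dend, ?_⟩
    rw [← Set.image_iUnion, h4, Set.image_univ, eY.symm.surjective.range_eq]
  · rintro ⟨_, ⟨c, h1, h2⟩, T, h3, h4⟩
    have := eY.symm.locallyConnectedSpace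
    obtain ⟨t, h5⟩ := Pool.Agent.Lib.MP_32448b_gt.sufficient (eY.continuous.comp h1)
      (eY.injective.comp h2) (T := fun n => eY '' T n) (fun n => by
        obtain ⟨_, _, _, hc⟩ := h3 n
        have := Pool.Agent.Lib.MP_32448b_gt.dend_of_no_circle (X := T n)
          fun g hg hi => hc ⟨g, hg, hi⟩
        simpa only [Set.image_univ, Set.range_comp, Subtype.range_coe] using
          (Pool.Agent.Lib.MP_32448b_gt.Dend.sd (E := T n)).image
          (eY.continuous.comp continuous_subtype_val).continuousOn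
          (eY.injective.comp Subtype.val_injective).injOn)
      (by rw [← Set.image_iUnion, h4, Set.image_univ, eY.surjective.range_eq]) hk
    let e : ULift.{v} t.E ≃ₜ t.E := Homeomorph.ulift
    have he : ∀ y, (eY.symm ∘ t.g ∘ e) ⁻¹' {y} = e.symm '' (t.g ⁻¹' {eY y}) := fun y => by
      rw [e.symm.image_eq_preimage_symm]
      ext x
      simp [Homeomorph.symm_apply_eq]
    have hfin : ∀ y, (t.g ⁻¹' {y}).Finite := fun y =>
      Set.finite_of_ncard_ne_zero (by rw [h5]; omega)
    have hcard : ∀ y, ((eY.symm ∘ t.g ∘ e) ⁻¹' {y}).encard = k := fun y => by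
      rw [he, e.symm.injective.encard_image, ← (hfin _).cast_ncard_eq, h5]
    refine ⟨ULift.{v} t.E, inferInstance, ⟨e.symm.compactSpace,
      e.symm.surjective.connectedSpace e.symm.continuous, e.locallyConnectedSpace,
      fun ⟨g, a, b⟩ => Pool.Agent.Lib.MP_32448b_gt.no_circle (e ∘ g) (e.continuous.comp a)
        (e.injective.comp b)⟩, eY.symm ∘ t.g ∘ e,
      eY.symm.continuous.comp (t.cont.comp e.continuous), fun y => ?_, hcard⟩
    refine Set.encard_ne_zero.1 (?_ : ((eY.symm ∘ t.g ∘ e) ⁻¹' {y}).encard ≠ 0)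
    rw [hcard]
    exact_mod_cast (by omega : k ≠ 0)

end Pool.Agent.Results.MP_32448b_gt.Classification
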