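import Pool.Agent.Lib.MP_32448b_gt.Ex

set_option autoImplicit false

namespace Pool.Agent.Results.MP_32448b_gt.NotSufficient

/-- A dendrite: a locally connected metric continuum containing no simple closed curve. -/
def IsDendrite (X : Type*) [MetricSpace X] : Prop :=
  CompactSpace X ∧ ConnectedSpace X ∧ LocallyConnectedSpace X ∧
    ¬ ∃ g : Circle → X, Continuous g ∧ Function.Injective g

/-- An exactly `k`-to-one continuous surjection. -/
def IsKToOne {X Y : Type*} [TopologicalSpace X] [TopologicalSpace Y] (k : ℕ) (f : X → Y) : Prop :=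
  Continuous f ∧ Function.Surjective f ∧ ∀ y, (f ⁻¹' {y}).encard = k

universe v

theorem result :
    ∃ (Y : Type) (_ : MetricSpace Y), CompactSpace Y ∧ ConnectedSpace Y ∧
      LocallyConnectedSpace Y ∧ smallInductiveDimension Y = 1 ∧
      (∃ c : Circle → Y, Continuous c ∧ Function.Injective c) ∧
      (∀ 𝒜 : Set (Set Y), (∀ A ∈ 𝒜, IsCompact A ∧ IsConnected A ∧ A.Nontrivial) →
        𝒜.PairwiseDisjoint id → 𝒜.Countable) ∧
      (∃ q : unitInterval → Y, Continuous q ∧ Function.Surjective q ∧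
        ∀ y, (q ⁻¹' {y}).encard ≤ 2) ∧
      ∀ (k : ℕ), 1 < k → ∀ (X : Type v) [MetricSpace X], IsDendrite X →
        ∀ f : X → Y, ¬ IsKToOne k f := by
  obtain ⟨Y, _, _, q, E, hq, hs, h2, hE, hK, hT⟩ := Pool.Agent.Lib.MP_32448b_gt.exists_example
  have := hs.connectedSpace hq
  have := (Pool.Agent.Lib.MP_32448b_gt.sd_Icc (zero_le_one' ℝ)).dend
  have := (hq.isClosedMap.isQuotientMap hq hs).locallyPathConnectedSpace
  refine ⟨Y, inferInstance, inferInstance, inferInstance, inferInstance,
    smallInductiveDimension_eq 1 (Pool.Agent.Lib.MP_32448b_gt.dim_le_one hE hK) fun h => ?_, ?_,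
    fun 𝒜 h hd => Pool.Agent.Lib.MP_32448b_gt.countable_of_hit hE (fun A hA =>
      hK A (h A hA).1.isClosed (h A hA).2.1.isPreconnected (h A hA).2.2) hd,
    ⟨q, hq, hs, h2⟩, ?_⟩
  · obtain ⟨y⟩ : Nonempty Y := inferInstance
    refine hT (fun _ => {y}) (fun _ => Pool.Agent.Lib.MP_32448b_gt.sd_singleton y)
      (Set.eq_univ_of_forall fun z => Set.mem_iUnion.2 ⟨0, by_contra fun hz => ?_⟩)
    obtain ⟨U, hU, h1, h3⟩ := (hasSmallInductiveDimensionLT_one_iff.1 h).exists_subset_of_mem_open
      (show z ∈ ({y}ᶜ : Set Y) from hz) isOpen_compl_singleton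
    exact h3 (IsClopen.eq_univ hU ⟨z, h1⟩ ▸ Set.mem_univ y) rfl
  · by_contra hc
    have := Pool.Agent.Lib.MP_32448b_gt.dend_of_no_circle (X := Y) fun g hg hi => hc ⟨g, hg, hi⟩
    exact hT (fun _ => Set.univ) (fun _ => Pool.Agent.Lib.MP_32448b_gt.Dend.sd)
      (Set.iUnion_const _)
  · rintro k hk D _ ⟨_, _, _, hc⟩ f hf
    let eD := (kuratowskiEmbedding.isometry D).isometryEquivOnRange.toHomeomorph
    have := eD.compactSpace
    have := eD.surjective.connectedSpace eD.continuous
    have := eD.symm.locallyConnectedSpace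
    have := Pool.Agent.Lib.MP_32448b_gt.dend_of_no_circle (X := Set.range (kuratowskiEmbedding D))
      fun g hg hi => hc ⟨eD.symm ∘ g, eD.symm.continuous.comp hg, eD.symm.injective.comp hi⟩
    obtain ⟨-, -, T, h3, h4⟩ := Pool.Agent.Lib.MP_32448b_gt.necessary
      (f := f ∘ eD.symm) (k := k) (hf.1.comp eD.symm.continuous) hk (fun y => by
        rw [Set.preimage_comp, ← eD.image_eq_preimage_symm,
          Set.ncard_image_of_injective _ eD.injective, Set.ncard, hf.2.2]
        rfl)
    exact hT T h3 h4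

end Pool.Agent.Results.MP_32448b_gt.NotSufficient
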